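import Mathlib
import Pool.Agent.H871R2.Sph.Upper
import Pool.Agent.H871R2.Sph.Lower

set_option autoImplicit false
open Topology

namespace Pool.Agent.Results.MP_c6d336_gt.ConjugateLengthThree

open Pool.Agent.H871R2.Sph

/-- The 2-sphere: the unit sphere of Euclidean 3-space. -/
def S2 : Type := Metric.sphere (0 : EuclideanSpace ℝ (Fin 3)) 1

/-- The usual topology of the 2-sphere, as a subspace of Euclidean 3-space. -/
instance s2Topology : TopologicalSpace S2 :=
  instTopologicalSpaceSubtype (X := EuclideanSpace ℝ (Fin 3))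
    (p := fun x => x ∈ Metric.sphere (0 : EuclideanSpace ℝ (Fin 3)) 1)

/-- A homeomorphism of the sphere, as a continuous map. -/
def toCM (f : S2 ≃ₜ S2) : C(S2, S2) := ⟨f, f.continuous⟩

/-- The compact-open topology on `Homeo(S²)`: the topology induced from `C(S², S²)`. -/
abbrev homeoTopology : TopologicalSpace (S2 ≃ₜ S2) :=
  TopologicalSpace.induced toCM ContinuousMap.compactOpen

/-- `G`, the path component of the identity in `Homeo(S²)` with the compact-open topology. -/
def G : Set (S2 ≃ₜ S2) := @pathComponent (S2 ≃ₜ S2) homeoTopology 1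

/-- The property `P(n)`: for all `A, B ∈ G` different from the identity there are homeomorphisms
`H 0, …, H (n-1)` of the sphere with `B = ∏ H i * A * (H i)⁻¹` (ordered product, `n` factors).
Multiplication in `S2 ≃ₜ S2` is composition. -/
def P (n : ℕ) : Prop :=
  ∀ A ∈ G, ∀ B ∈ G, A ≠ 1 → B ≠ 1 →
    ∃ H : Fin n → (S2 ≃ₜ S2), B = (List.ofFn fun i => H i * A * (H i)⁻¹).prod

/-- transport of homeomorphisms -/
def tr {X Y : Type*} [TopologicalSpace X] [TopologicalSpace Y] (e : X ≃ₜ Y) (f : X ≃ₜ X) :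
    Y ≃ₜ Y := (e.symm.trans f).trans e

section
variable {X Y : Type*} [TopologicalSpace X] [TopologicalSpace Y] (e : X ≃ₜ Y)

theorem tr_apply (f : X ≃ₜ X) (y : Y) : tr e f y = e (f (e.symm y)) := rfl

theorem tr_mul (f g : X ≃ₜ X) : tr e (f * g) = tr e f * tr e g := by
  ext y
  rw [Homeomorph.mul_apply, tr_apply, tr_apply, tr_apply, Homeomorph.symm_apply_apply,
    Homeomorph.mul_apply]

theorem tr_one : tr e 1 = 1 := by
  ext y
  rw [tr_apply, Homeomorph.one_apply, Homeomorph.one_apply, Homeomorph.apply_symm_apply]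

theorem tr_inv (f : X ≃ₜ X) : tr e f⁻¹ = (tr e f)⁻¹ := by
  symm
  apply inv_eq_of_mul_eq_one_left
  rw [← tr_mul, inv_mul_cancel, tr_one]

theorem tr_symm_tr (f : X ≃ₜ X) : tr e.symm (tr e f) = f := by
  ext x
  rw [tr_apply, tr_apply, Homeomorph.symm_symm, Homeomorph.symm_apply_apply,
    Homeomorph.symm_apply_apply]

theorem tr_tr_symm (g : Y ≃ₜ Y) : tr e (tr e.symm g) = g := by
  ext x
  rw [tr_apply, tr_apply, Homeomorph.symm_symm, Homeomorph.apply_symm_apply,
    Homeomorph.apply_symm_apply]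

theorem tr_ne {f : X ≃ₜ X} (h : f ≠ 1) : tr e f ≠ 1 := by
  intro h'
  apply h
  rw [← tr_symm_tr e f, h', tr_one]

end

instance : LocallyCompactSpace S2 :=
  inferInstanceAs (LocallyCompactSpace (Metric.sphere (0 : EuclideanSpace ℝ (Fin 3)) 1))

/-- the identity component is the set of homeomorphisms isotopic to the identity -/
theorem mem_G_iff (f : S2 ≃ₜ S2) : f ∈ G ↔ ∃ γ : unitInterval → (S2 ≃ₜ S2),
    Continuous (fun p : unitInterval × S2 => γ p.1 p.2) ∧ γ 0 = 1 ∧ γ 1 = f := by
  let _ : TopologicalSpace (S2 ≃ₜ S2) := homeoTopology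
  constructor
  · rintro ⟨γ⟩
    refine ⟨γ, ?_, γ.source, γ.target⟩
    have h1 : Continuous toCM := continuous_induced_dom
    exact ContinuousMap.continuous_uncurry_of_continuous ⟨fun t => toCM (γ t),
      h1.comp γ.continuous⟩
  · rintro ⟨γ, hγ, h0, h1⟩
    refine ⟨⟨⟨γ, ?_⟩, h0, h1⟩⟩
    apply continuous_induced_rng.2
    exact ContinuousMap.continuous_of_continuous_uncurry _ hγ

/-- the sphere as the one-point compactification of the plane -/
noncomputable def e : OnePoint ℂ ≃ₜ S2 :=
  onePointEquivSphereOfFinrankEq (ι := Fin 3) (V := ℂ) (by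
    rw [Complex.finrank_real_complex, Fintype.card_fin])

theorem allGood_tr {f : S2 ≃ₜ S2} (hf : f ∈ G) : AllGood (tr e.symm f) := by
  obtain ⟨γ, hγ, h0, h1⟩ := (mem_G_iff f).1 hf
  have h2 := allGood_of_isotopy (γ := fun t => tr e.symm (γ t)) (by
    show Continuous fun p : unitInterval × OnePoint ℂ => e.symm (γ p.1 (e p.2))
    exact e.symm.continuous.comp (hγ.comp (continuous_fst.prodMk
      (e.continuous.comp continuous_snd)))) (by
    rw [h0, tr_one]
    exact AllGood.one) 1
  rwa [h1] at h2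

theorem tr_mem {γ : unitInterval → (OnePoint ℂ ≃ₜ OnePoint ℂ)}
    (hγ : Continuous fun p : unitInterval × OnePoint ℂ => γ p.1 p.2) (h0 : γ 0 = 1) :
    tr e (γ 1) ∈ G := by
  have h1 : tr e (γ 0) = 1 := by rw [h0, tr_one]
  refine (mem_G_iff _).2 ⟨fun t => tr e (γ t), ?_, h1, rfl⟩
  show Continuous fun p : unitInterval × S2 => e (γ p.1 (e.symm p.2))
  exact e.continuous.comp (hγ.comp (continuous_fst.prodMk (e.symm.continuous.comp continuous_snd)))

theorem P_three : P 3 := by
  intro A hA B hB hA1 hB1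
  obtain ⟨h₁, h₂, h₃, h⟩ := three (allGood_tr hA) (allGood_tr hB) (tr_ne _ hA1) (tr_ne _ hB1)
  refine ⟨![tr e h₁, tr e h₂, tr e h₃], ?_⟩
  have h4 := congrArg (tr e) h
  simp only [tr_mul, tr_inv, tr_tr_symm] at h4
  simp only [List.ofFn_succ, List.ofFn_zero, List.prod_cons, List.prod_nil, mul_one]
  exact h4

theorem not_P : ¬ P 1 ∧ ¬ P 2 := by
  obtain ⟨β, hβ1, hβ2⟩ := exists_beta
  have hA : tr e half ∈ G := by
    have h1 := tr_mem (γ := fun t => rot t) rot_joint (by
      have : rot ((0 : unitInterval) : ℝ) = 1 := rot_zero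
      exact this)
    have h2 : rot ((1 : unitInterval) : ℝ) = half := rot_one
    rwa [h2] at h1
  have hB : tr e (lift β) ∈ G := by
    have h1 := tr_mem (γ := fun t => lift (alex β t)) (alex_joint ⟨1, hβ1⟩) (by
      ext x
      induction x using OnePoint.rec with
      | infty => rfl
      | coe z => rw [lift_coe]; simp [alex_zero])
    have h2 : lift (alex β ((1 : unitInterval) : ℝ)) = lift β := by
      ext x
      induction x using OnePoint.rec with
      | infty => rfl
      | coe z => rw [lift_coe]; simp [alex_one]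
    rwa [h2] at h1
  have hbb : lift β * lift β ≠ 1 := by
    intro h
    have h1 : (lift β * lift β) ((1 / 2 : ℂ) : OnePoint ℂ) = ((1 / 2 : ℂ) : OnePoint ℂ) := by
      rw [h]; rfl
    rw [Homeomorph.mul_apply, lift_coe, lift_coe] at h1
    have h2 := OnePoint.coe_injective h1
    have h3 := beta_lt hβ2 (z := 1 / 2) (by norm_num) (by norm_num)
    have h4 := beta_le hβ2 (β (1 / 2))
    rw [h2] at h4
    linarith
  have hB1 : lift β ≠ 1 := by
    intro h
    apply hbb
    rw [h, mul_one]
  have hconj : ∀ h : S2 ≃ₜ S2, (h * tr e half * h⁻¹) * (h * tr e half * h⁻¹) = 1 := by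
    intro h
    have h1 : (h * tr e half * h⁻¹) * (h * tr e half * h⁻¹) =
        h * (tr e half * tr e half) * h⁻¹ := by group
    rw [h1, ← tr_mul, half_half, tr_one]
    group
  constructor
  · intro hP
    obtain ⟨H, hH⟩ := hP _ hA _ hB (tr_ne _ half_ne) (tr_ne _ hB1)
    simp only [List.ofFn_succ, List.ofFn_zero, List.prod_cons, List.prod_nil, mul_one] at hH
    apply hbb
    have h1 := hconj (H 0)
    rw [← hH, ← tr_mul] at h1
    rw [← tr_symm_tr e (lift β * lift β), h1, tr_one]
  · intro hP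
    obtain ⟨H, hH⟩ := hP _ hA _ hB (tr_ne _ half_ne) (tr_ne _ hB1)
    simp only [List.ofFn_succ, List.ofFn_zero, List.prod_cons, List.prod_nil, mul_one] at hH
    have ha := hconj (H 0)
    have hb := hconj (H (Fin.succ 0))
    set a := H 0 * tr e half * (H 0)⁻¹ with hadef
    set b := H (Fin.succ 0) * tr e half * (H (Fin.succ 0))⁻¹ with hbdef
    have h1 : a * tr e (lift β) = (tr e (lift β))⁻¹ * a := by
      have h2 : a * (a * b) = (a * b)⁻¹ * a := by
        have e1 : a⁻¹ = a := inv_eq_of_mul_eq_one_right ha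
        have e2 : b⁻¹ = b := inv_eq_of_mul_eq_one_right hb
        rw [mul_inv_rev, e1, e2, ← mul_assoc, ha, one_mul, mul_assoc, ha, mul_one]
      rw [hH]
      exact h2
    have h2 := congrArg (tr e.symm) h1
    simp only [tr_mul, tr_inv, tr_symm_tr] at h2
    apply beta_not_reversible hβ1 hβ2 (tr e.symm a)
    intro x
    have h3 := congrArg (fun f : OnePoint ℂ ≃ₜ OnePoint ℂ => f x) h2
    exact h3

/-- **Uniform conjugate-product length for sphere homeomorphisms**: the least `n ≥ 1` for which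
`P(n)` holds is `3`. -/
theorem result : IsLeast {n : ℕ | 1 ≤ n ∧ P n} 3 := by
  refine ⟨⟨by norm_num, P_three⟩, ?_⟩
  rintro n ⟨hn1, hn⟩
  by_contra hcon
  push Not at hcon
  obtain ⟨h1, h2⟩ := not_P
  interval_cases n
  · exact h1 hn
  · exact h2 hn

end Pool.Agent.Results.MP_c6d336_gt.ConjugateLengthThree
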